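import Pool.Agent.Y289.ST.Cov2

/-! The isospectral companions of almost every convex polygon depend analytically on the polygon, and
their number is locally constant: either a polygon and all its neighbours are determined by their
spectra, or none of them is. -/

open Set MeasureTheory
open scoped Topology
open Pool.Agent.W780.PG (IsConvexPolygon region)
open Pool.Agent.W703.GP (Isospectral)

namespace Pool.Agent.Results.MP_5b0138_an.AnalyticCompanions

/-- There is an open set `G` of lists of `n + 3` points of the plane, containing Lebesgue-almost
every list of the vertices of a convex polygon, such that each `p` in `G` has a neighbourhood `U`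
with finitely many real analytic maps `g 0, …, g (r - 1)` on `U` such that for each `q` in `U`: `q`
is a convex polygon, the `g i q` are convex polygons isospectral to `q`, no two of them are
congruent, and each convex polygon with at most `n + 3` vertices which is isospectral to `q` has
`n + 3` vertices and is congruent to one of the `g i q`.  (As `q` is isospectral to itself, it is
congruent to exactly one of the `g i q`; so `q` is determined by its spectrum if and only if
`r = 1`.) -/
theorem result (n : ℕ) :
    ∃ G : Set (Fin (n + 3) → ℂ), IsOpen G ∧ volume ({p | IsConvexPolygon p} \ G) = 0 ∧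
      ∀ p ∈ G, ∃ U ∈ 𝓝 p, ∃ (r : ℕ) (g : Fin r → (Fin (n + 3) → ℂ) → (Fin (n + 3) → ℂ)),
        (∀ i, AnalyticOnNhd ℝ (g i) U) ∧ ∀ q ∈ U, IsConvexPolygon q ∧
          (∀ i, IsConvexPolygon (g i q) ∧ Isospectral (region q) (region (g i q))) ∧
          (∀ i j, (∃ φ : ℂ ≃ᵢ ℂ, φ '' region (g i q) = region (g j q)) → i = j) ∧
          ∀ m ≤ n, ∀ q' : Fin (m + 3) → ℂ, IsConvexPolygon q' →
            Isospectral (region q) (region q') →
            m = n ∧ ∃ i, ∃ φ : ℂ ≃ᵢ ℂ, φ '' region (g i q) = region q' :=
  Pool.Agent.Y289.ST.covering n

end Pool.Agent.Results.MP_5b0138_an.AnalyticCompanions
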