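import Pool.Agent.Y289.ST.Few4

/-! Almost every convex polygon with `N = n + 3` vertices is determined, up to finitely many
possibilities and with Lipschitz stability, by `2 N - 3 = 2 n + 3` of its Dirichlet eigenvalues, the
number of parameters of a polygon with `N` vertices up to congruence. -/

open Set MeasureTheory
open Pool.Agent.W780.PG (IsConvexPolygon region)
open Pool.Agent.W703.GP (dirichletEigenvalue)

namespace Pool.Agent.Results.MP_5b0138_an.AsManyEigenvalues

/-- For almost every list `p` of `n + 3` points of the plane which are the vertices of a convex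
polygon there are `2 n + 3` indices `ι j`, constants `C` and `δ > 0` and a finite set `S` of convex
polygons with `n + 3` vertices and the same eigenvalues number `ι j` as `p` such that the following
holds for `0 ≤ ε ≤ δ`: each convex polygon with at most `n + 3` vertices whose `2 n + 3` Dirichlet
eigenvalues number `ι j` differ from those of `p` by at most `ε` has exactly `n + 3` vertices, and
these are, after a rotation and a translation, at distance at most `C ε` from the corresponding
vertices of a member of `S`. -/
theorem result (n : ℕ) : ∀ᵐ p : Fin (n + 3) → ℂ, IsConvexPolygon p →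
    ∃ (ι : Fin (2 * n + 3) → ℕ) (C δ : ℝ) (S : Set (Fin (n + 3) → ℂ)),
      (∀ j, 1 ≤ ι j) ∧ 0 < δ ∧ S.Finite ∧
      (∀ Q ∈ S, IsConvexPolygon Q ∧
        ∀ j, dirichletEigenvalue (region Q) (ι j) = dirichletEigenvalue (region p) (ι j)) ∧
      ∀ m ≤ n, ∀ q : Fin (m + 3) → ℂ, IsConvexPolygon q → ∀ ε : ℝ, 0 ≤ ε → ε ≤ δ →
        (∀ j, |dirichletEigenvalue (region q) (ι j) - dirichletEigenvalue (region p) (ι j)| ≤ ε) →
        ∃ h : m = n, ∃ Q ∈ S, ∃ (θ : ℝ) (v : ℂ), ∀ i : Fin (m + 3),
          ‖q i - (Complex.exp (θ * Complex.I) * Q (Fin.cast (congrArg (· + 3) h) i) + v)‖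
            ≤ C * ε :=
  Pool.Agent.Y289.ST.few n

end Pool.Agent.Results.MP_5b0138_an.AsManyEigenvalues
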