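import Pool.Agent.Y289.TQ.Exc2

set_option autoImplicit false

/-!
# Convex polygons whose side reflections generate a non discrete group, and transplantation

Let `P` be a convex polygon such that the group generated by the reflections in the lines through
its sides is not discrete. If `Q` is any convex polygon and there are injective transplantations
from `P` to `Q` and from `Q` to `P` which respect the Dirichlet condition, then `P` and `Q` are
congruent.
-/

namespace Pool.Agent.Results.MP_5b0138_an.NonDiscreteReflections

open Pool.Agent.W780 Pool.Agent.W780.PG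

open scoped Real

/-- The group generated by the reflections in the lines through the sides of `p`: the reflection
in the side number `i` is the isometry of the plane, not the identity, which fixes the vertices
`p i` and `p (i + 1)`. -/
noncomputable def reflectionGroup {n : ℕ} (p : Fin (n + 3) → ℂ) : Subgroup (ℂ ≃ᵢ ℂ) :=
  Subgroup.closure {σ | ∃ i, σ ≠ 1 ∧ σ (p i) = p i ∧ σ (p (i + 1)) = p (i + 1)}

theorem result {n m : ℕ} {p : Fin (n + 3) → ℂ} {q : Fin (m + 3) → ℂ}
    (hp : IsConvexPolygon p) (hq : IsConvexPolygon q)
    (not_discrete : ∀ ε > 0, ∃ g ∈ reflectionGroup p, g ≠ 1 ∧ ∀ z ∈ region p, dist (g z) z < ε)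
    (U : TR.Transplantation (region p) (region q)) (V : TR.Transplantation (region q) (region p))
    (hU : U.RespectsDirichlet) (hV : V.RespectsDirichlet) (iU : IsInjective U)
    (iV : IsInjective V) : ∃ ψ : ℂ ≃ᵢ ℂ, ψ '' region q = region p := by
  refine Pool.Agent.Y289.TQ.transplant' hp hq ?_ U V hU hV iU iV
  have P := Pool.Agent.TH613.TP.bf hp
  intro ε hε
  obtain ⟨g, hg, hne, h⟩ := not_discrete ε hε
  refine ⟨g, ?_, hne, fun z hz => h z (by rw [P.rg]; exact hz)⟩
  have hle : reflectionGroup p ≤ Pool.Agent.Y289.TQ.Gr p := by
    unfold reflectionGroup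
    rw [Subgroup.closure_le]
    rintro σ ⟨i, h0, h1, h2⟩
    have h3 := Pool.Agent.Y289.TP.eq_rf (Pool.Agent.Y289.TP.BFne P i) h0 h1 h2
    rw [h3]
    exact Pool.Agent.Y289.TQ.sg_mem_Gr p i
  exact hle hg

end Pool.Agent.Results.MP_5b0138_an.NonDiscreteReflections
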